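import Pool.Agent.FS.LowPA.Main
import Pool.Agent.FS.LowPA.BridgeA
import Pool.Agent.FS.LowPA.BridgeB

/-!
A low set that computes a solution to every computable instance of the Ramsey-type weak König
lemma computes a separating set for every disjoint pair of c.e. sets.
-/

namespace Pool.Agent.Variants.MP_aa609a_lc.LowBoundingPA

open Pool.Agent.Lib.MP_aa609a_lc Pool.Agent.FS.LowPA

theorem result (D : ℕ → Bool)
    (hlow : ∀ W : List Bool × ℕ → Prop, REPred W → ∃ g : ℕ → ℕ → Bool, Computable₂ g ∧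
      ∀ x, ∃ s0, ∀ s, s0 ≤ s → (g x s = true ↔ x ∈ Out W D))
    (hb : ∀ Y : List Bool → Prop, IsInst Y → ∃ G : ℕ → Bool, Sol Y {i | G i = true} ∧
      TuringReducible (fun n => Part.some (G n).toNat) (fun n => Part.some (D n).toNat))
    (A B : ℕ → Prop) (hA : REPred A) (hB : REPred B) (hAB : ∀ n, A n → ¬ B n) :
    ∃ X : ℕ → Bool,
      TuringReducible (fun n => Part.some (X n).toNat) (fun n => Part.some (D n).toNat) ∧
      (∀ n, A n → X n = true) ∧ ∀ n, B n → X n = false := by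
  obtain ⟨W0, W1, h0, h1, hc, hB0, hA1⟩ := main D hlow (fun Y hY => by
    obtain ⟨G, hG, hr⟩ := hb Y hY
    obtain ⟨W, hW, hW'⟩ := out_of_red D G hr
    exact ⟨W, hW, hW' ▸ hG⟩) A B hA hB hAB
  obtain ⟨X, hX, hX'⟩ := red_of_cover D W0 W1 h0 h1 hc
  refine ⟨X, hX, fun n hn => ?_, fun n hn => ?_⟩
  · cases h : X n
    · exact absurd ((hX' n).2 h) (hA1 n hn)
    · rfl
  · cases h : X n
    · rfl
    · exact absurd ((hX' n).1 h) (hB0 n hn)

end Pool.Agent.Variants.MP_aa609a_lc.LowBoundingPA
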